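import Pool.Agent.Q213.CpSepH

set_option autoImplicit false

open TopologicalSpace

namespace Pool.Agent.Results.MP_5cc1ac_gt.LindelofCase

/-- (ZFC) Let X be Tychonoff and C_pC_p(X) perfectly normal. Then C_pC_p(X) is Lindelöf if and only
if every subspace (closed or not) of C_pC_pC_p(X) is separable. -/
theorem result :
    ∀ (X : Type) [TopologicalSpace X] [T35Space X],
      PerfectlyNormalSpace {g : {f : X → ℝ // Continuous f} → ℝ // Continuous g} →
      (LindelofSpace {g : {f : X → ℝ // Continuous f} → ℝ // Continuous g} ↔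
        ∀ S : Set {h : {g : {f : X → ℝ // Continuous f} → ℝ // Continuous g} → ℝ // Continuous h},
          SeparableSpace S) := by
  intro X _ _ h
  exact ⟨fun hL => Q213.CpSep.hs_of_lindelof X h hL, fun hS => Q213.CpSep.lindelof_of_hs _ hS⟩

end Pool.Agent.Results.MP_5cc1ac_gt.LindelofCase
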