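import Pool.Agent.Q213.CpSepG

set_option autoImplicit false

open TopologicalSpace

namespace Pool.Agent.Results.MP_5cc1ac_gt.UnderMartin

/-- Martin's axiom for ℵ₁ dense sets: a nonempty preordered set with no uncountable antichain has,
for any family of at most ℵ₁ dense subsets, a filter meeting all of them. -/
def MartinAlephOne : Prop :=
  ∀ (P : Type) (_ : Preorder P), Nonempty P →
    (∀ A : Set P, (∀ p ∈ A, ∀ q ∈ A, p ≠ q → ¬ ∃ r, r ≤ p ∧ r ≤ q) → A.Countable) →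
    ∀ 𝒟 : Set (Set P), Cardinal.mk 𝒟 ≤ Cardinal.aleph 1 →
      (∀ D ∈ 𝒟, ∀ p, ∃ q ∈ D, q ≤ p) →
      ∃ G : Set P, G.Nonempty ∧ (∀ p ∈ G, ∀ q, p ≤ q → q ∈ G) ∧
        (∀ p ∈ G, ∀ q ∈ G, ∃ r ∈ G, r ≤ p ∧ r ≤ q) ∧ ∀ D ∈ 𝒟, (D ∩ G).Nonempty

/-- Under Martin's axiom for ℵ₁ dense sets: for every Tychonoff space X, if C_pC_p(X) is perfectly
normal then every subspace (closed or not) of C_pC_pC_p(X) is separable. -/
theorem result (hMA : MartinAlephOne) :
    ∀ (X : Type) [TopologicalSpace X] [T35Space X],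
      PerfectlyNormalSpace {g : {f : X → ℝ // Continuous f} → ℝ // Continuous g} →
      ∀ S : Set {h : {g : {f : X → ℝ // Continuous f} → ℝ // Continuous g} → ℝ // Continuous h},
        SeparableSpace S := by
  intro X _ _ h
  exact Q213.CpSep.hs_c3 X hMA h

end Pool.Agent.Results.MP_5cc1ac_gt.UnderMartin
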